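import Mathlib
import Pool.Agent.R139.Sn

/-!
# Disconnected elements of the reduced Groebner bases of the toric ideal of `S_n`
-/

set_option autoImplicit false

namespace Pool.Agent.Results.MP_dd0c5a_co.BlockFormCubic

open MvPolynomial Pool.Agent.R139.Toric Pool.Agent.R139.Sn

/-- For every `n ≥ 4` and every field `k`: total orders as in the definition of the term orders
`≺_{S_n}` exist, and for every one of them the toric ideal `I_{S_n}` has a reduced Groebner basis
and every reduced Groebner basis contains a binomial `t^u - t^v` of degree `3` whose matrix has a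
block form. -/
theorem result (k : Type*) [Field k] (n : ℕ) (hn : 4 ≤ n) :
    (∃ r : LatticePoint n → LatticePoint n → Prop, IsSnOrder r) ∧
    ∀ r : LatticePoint n → LatticePoint n → Prop, IsSnOrder r →
      (∃ G, IsReducedGB (GRevLex r) (toricIdeal n k) G) ∧
      ∀ G, IsReducedGB (GRevLex r) (toricIdeal n k) G →
        ∃ g ∈ G, g.totalDegree = 3 ∧
          ∃ u v : LatticePoint n →₀ ℕ, g = monomial u 1 - monomial v 1 ∧
          ∃ V : Finset (Fin n), V.Nonempty ∧ Vᶜ.Nonempty ∧
            ∀ i ∈ V, ∀ j ∉ V, matrixOf u i j = 0 := by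
  refine ⟨exists_order n, ?_⟩
  obtain ⟨m, rfl⟩ := Nat.exists_eq_add_of_le' hn
  intro r hr
  obtain ⟨h1, h2⟩ := main k hr
  refine ⟨h1, fun G hG => ?_⟩
  obtain ⟨g, hg, hd, u, v, hguv, hA⟩ := h2 G hG
  refine ⟨g, hg, hd, u, v, hguv, Finset.univ.filter fun i => i.1 < 3, ⟨0, by simp⟩,
    ⟨⟨3, by omega⟩, by simp⟩, ?_⟩
  intro i hi j hj
  rw [Finset.mem_filter] at hi hj
  have hi' : i.1 < 3 := hi.2
  have hj' : 3 ≤ j.1 := by
    by_contra h
    exact hj ⟨Finset.mem_univ _, by omega⟩
  have hij : i.1 ≠ j.1 := by omega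
  rw [hA, blk_off _ _ _ _ _ hij hj', blk_off _ _ _ _ _ hij hj', blk_off _ _ _ _ _ hij hj']

end Pool.Agent.Results.MP_dd0c5a_co.BlockFormCubic
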